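import Pool.Agent.Helper47.CO.FiveMain

/-!
# The minimum of `deltaL` over cones, truncated cones and polytopes with five vertices
-/

set_option autoImplicit false
namespace Pool.Agent.Helper37.Keep.ConeMinimum
open Pool.Agent.Helper84.Tet Pool.Agent.Helper47.CO

/-- For every convex body `K` in space which is a cone or a truncated cone over a plane convex
body, or the convex hull of five points, the density of a densest lattice packing is at least
`18 / 49`, with equality exactly for the tetrahedra. Every tetrahedron is such a body, so
`18 / 49` is the minimum of `deltaL` over this class. It is not the minimum `mL` over all convex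
bodies: no body of the class minimises `deltaL`. -/
theorem result :
    (∀ K : Set E3, IsConvexBody K → (IsTruncatedCone K ∨ IsHullOfFive K) →
      18 / 49 ≤ deltaL K ∧ (deltaL K = 18 / 49 ↔ IsTetrahedron K)) ∧
    (∀ K : Set E3, IsTetrahedron K → IsConvexBody K ∧ IsTruncatedCone K) ∧
    mL < 18 / 49 := by
  refine ⟨fun K hK h => ?_, fun K h => ⟨h.body, h.cone⟩, mL_lt⟩
  rcases h with h | h
  · exact main_cone hK h
  · exact main_five hK h

end Pool.Agent.Helper37.Keep.ConeMinimum
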