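import Pool.Agent.Helper13.PL.NF8

/-!
# Plane curves of every degree with coefficients in a linear system have no Galois sections

Let `k` be a finitely generated field of characteristic zero and let `F` be a finitely generated subfield of `k`.
Let `w_0, …, w_m` be elements of `k` such that one of the quotients `w_i / w_j` is transcendental over `F`; for
example a basis of a Riemann-Roch space `L(D)` of dimension at least two, if `k` is the function field of a
(geometrically integral, projective, normal) curve or variety over `F`; for `k = F(T)` one can take `1, T, …, T^m`.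
Let `d ≥ 3`.  We consider all plane curves of degree `d`

`∑_{i + j ≤ d} a_(i,j) X^i Y^j Z^(d - i - j) = 0`

whose coefficients `a_(i,j)` are in the `F`-vector space generated by `w_0, …, w_m`.  For all of them outside a thin
subset (in the sense of Serre) of the affine space of dimension `(m + 1) (d + 1) (d + 2) / 2` over `F` the curve is
smooth, and it has no Galois section: for all primes `p` dividing `d` and all finite extensions `k'` of `k` whose
degree is prime to `p`, the curve over `k'`, and every curve over `k'` which maps onto it, has no Galois section.
So for `d ≥ 4` these smooth plane curves, and all curves over `k'` which dominate them, satisfy the section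
conjecture over all these fields `k'` (in particular over `k`).  (For `d = 4` these are the non-hyperelliptic
curves of genus three.  Over extensions of degree `d` the curves can have rational points.)

The field `F` is Hilbertian, so the complement of a thin set is big (Zariski dense; for number fields it contains 100
percent of the integral points if they are ordered by height).
-/

universe u

namespace Pool.Agent.Helper37.Keep.PlaneCurves

open Polynomial Pool.Agent.Helper91.Sect

/-- Thin sets in the sense of Serre: a set `A` of points of the affine space `F ^ I` is thin if there are a nonzero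
polynomial `Ψ` and finitely many polynomials `Q(X)` of degree at least two, whose coefficients are polynomials on
`F ^ I`, and which are irreducible over the field of rational functions on `F ^ I`, such that for all `a ∈ A`
either `Ψ(a) = 0` or one of the polynomials `Q(a, X)` has a root in `F`. -/
def IsThin {F : Type u} [Field F] {I : Type} (A : Set (I → F)) : Prop :=
  ∃ (Ψ : MvPolynomial I F) (S : Finset (MvPolynomial I F)[X]), Ψ ≠ 0 ∧
    (∀ Q ∈ S, 2 ≤ Q.natDegree ∧ Irreducible (Q.map (algebraMap (MvPolynomial I F)
      (FractionRing (MvPolynomial I F))))) ∧
    ∀ a ∈ A, MvPolynomial.eval a Ψ = 0 ∨ ∃ Q ∈ S, ∃ x : F, eval₂ (MvPolynomial.eval a) x Q = 0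

/-- the exponents `(i, j)` with `i + j ≤ d` -/
abbrev Expo (d : ℕ) : Type := {q : Fin (d + 1) × Fin (d + 1) // (q.1 : ℕ) + (q.2 : ℕ) ≤ d}

/-- The ternary form `∑_{i + j ≤ d} a_(i,j) X^i Y^j Z^(d - i - j)` with `a_(i,j) = ∑_{e ≤ m} a_(i,j,e) w_e`. -/
noncomputable def curve {F k : Type u} [Field F] [Field k] [Algebra F k] {d m : ℕ}
    (w : Fin (m + 1) → k) (a : Expo d × Fin (m + 1) → F) : MvPolynomial (Fin 3) k :=
  ∑ q : Expo d, MvPolynomial.C (∑ e : Fin (m + 1), algebraMap F k (a (q, e)) * w e) *
    (MvPolynomial.X 0 ^ (q.1.1 : ℕ) * MvPolynomial.X 1 ^ (q.1.2 : ℕ) *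
      MvPolynomial.X 2 ^ (d - q.1.1 - q.1.2))

/-- The plane curve `f = 0` is smooth: over all extensions `L` of `k` the three partial derivatives of `f` have no
common zero in the projective plane.  (In characteristic zero, where a common zero of the derivatives of a form of
positive degree is a zero of the form.) -/
def IsSmooth {k : Type u} [Field k] (f : MvPolynomial (Fin 3) k) : Prop :=
  ∀ (L : Type u) [Field L] [Algebra k L] (P : Fin 3 → L), P ≠ 0 →
    ∃ i, MvPolynomial.aeval P (MvPolynomial.pderiv i f) ≠ 0

/-- For all primes `p` dividing `d` and all finite extensions `k'` of `k` of degree prime to `p` no curve over `k'`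
which maps onto the plane curve `f = 0` has a Galois section: there is no Galois section of `K / k'` if `K` contains
elements `x` and `y` with `x` transcendental over `k'` and `f (x, y, 1) = 0`. -/
def NoSections {k : Type u} [Field k] (d : ℕ) (f : MvPolynomial (Fin 3) k) : Prop :=
  ∀ p : ℕ, p.Prime → p ∣ d →
    ∀ (k' : Type u) [Field k'] [Algebra k k'], FiniteDimensional k k' →
      ¬ p ∣ Module.finrank k k' →
    ∀ (K : Type u) [Field K] [Algebra k' K] (x y : K), Transcendental k' x →
      MvPolynomial.aeval ![x, y, 1] (MvPolynomial.map (algebraMap k k') f) = 0 →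
    IsEmpty (GaloisSection k' K)

/-- **Plane curves of degree `d ≥ 3` with coefficients in a linear system have no Galois sections.** -/
theorem result {F k : Type u} [Field F] [CharZero F] [Field k] [Algebra F k]
    -- `F` and `k` are finitely generated fields
    (hF : ∃ S : Finset F, Subfield.closure (S : Set F) = ⊤)
    (hk : ∃ S : Finset k, Subfield.closure (S : Set k) = ⊤)
    -- the quotient of two of the `w_e` is transcendental over `F`
    {m : ℕ} {w : Fin (m + 1) → k} {i j : Fin (m + 1)} (hw : Transcendental F (w i / w j))
    {d : ℕ} (hd : 3 ≤ d) :
    -- the set of the exceptional curves is thin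
    IsThin {a : Expo d × Fin (m + 1) → F | ¬ (IsSmooth (curve w a) ∧ NoSections d (curve w a))} := by
  refine UL.IsThin.mono (Pool.Agent.PL.plane_final hF hk hw hd) fun a ha hne => ha ?_
  refine ⟨hne.1, ?_⟩
  intro p hp hpd k' _ _ hfin hdeg K _ _ x y hx hxy
  refine ⟨fun s => hne.2 p hp hpd ⟨k', _, _, hfin, hdeg, K, _, _, x, y, hx, ?_, ⟨s⟩⟩⟩
  rw [← Pool.Agent.PL.aeval_form]
  exact hxy

end Pool.Agent.Helper37.Keep.PlaneCurves
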