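import Pool.Agent.Helper37.TWH.F
import Pool.Agent.Helper13.TW.FinW2

/-!
# The section conjecture for the twists of every cyclic cover outside a hypersurface

Let `k` be a finitely generated field of characteristic zero, `F` a finitely generated subfield of `k`, and
`w_0, …, w_m` elements of `k` such that the quotients `w_i / w_j` generate a field of transcendence degree at least
two over `F`, that is, two of the quotients `w_i / w_l` with the same denominator are algebraically independent
over `F`.  For example `F = ℚ` and the monomials of degree at most `m ≥ 1` in `r ≥ 2` algebraically independent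
elements of `k`, or a basis of the space of sections of an ample line bundle on a variety over `F` with function
field `k`.

Let `X` be a curve over `k` with a faithful action of the group scheme `μ_n`, `n ≥ 2`, which is not rational over
`kbar`.  The quotient is a curve with function field `K₀ / k`, the function field of `X` is `K₀(y)` with
`yⁿ = g ∈ K₀`, and the twists of `X` by the classes of `H¹(k, μ_n) = k* / k*ⁿ` are the curves `v yⁿ = g`.

We consider all elements `v = ∑ a_e w_e` of the `F`-vector space generated by the `w_e`.  For all of them outside a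
hypersurface `Ψ(a) = 0` the following holds for all `n` and all `j` which are not divisible by `n`:

* **every** Galois section of the twist `v^j yⁿ = g` is geometric, that is, it comes from a rational point;
* if moreover `gcd(n, ord_O(g))` does not divide `j` for all `k`-rational places `O` of `K₀`, then neither this twist
  nor any curve over `k` which maps onto it has a Galois section.

The twists may have rational points, for instance above every rational place `O` of `K₀` at which `g` has an order
which is prime to `n`; so the first statement is not a statement on curves without points.  There is no condition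
on the curve, on the cover or on `k`, except that `k` has transcendence degree at least two over some `F`; the genus
of the twist may also be one.
-/

universe u

namespace Pool.Agent.Helper37.Keep.TwistsOutsideHypersurfaceFixed

open Polynomial Pool.Agent.Helper91.Sect Pool.Agent.SC

/-- `K₀ / k` is a function field of one variable. -/
def IsCurve (k K₀ : Type u) [Field k] [Field K₀] [Algebra k K₀] : Prop :=
  ∃ x : K₀, Transcendental k x ∧ FiniteDimensional (IntermediateField.adjoin k {x}) K₀

/-- The curve over `k` with function field `K` is not rational over the algebraic closure of `k`. -/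
def NotRationalCurve (k K : Type u) [Field k] [Field K] [Algebra k K] : Prop :=
  ∀ z : AlgebraicClosure K,
    Subfield.closure ({c | IsAlgebraic k c} ∪ Set.range (algebraMap K (AlgebraicClosure K))) ≠
      Subfield.closure ({c | IsAlgebraic k c} ∪ {z})

/-- The twists `v^j yⁿ = g` of the cyclic covers `yⁿ = g`, `n ≥ 1`, by the powers of `v` (`n` does not
divide `j`) satisfy the section conjecture: if `K ⊇ K₀` is the function field of such a curve and it is
not rational over `kbar`, every Galois section of `K / k` is geometric. -/
def TwistsSatisfySC {k K₀ : Type u} [Field k] [Field K₀] [Algebra k K₀] (g : K₀) (v : k) : Prop :=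
  ∀ n j : ℕ, 0 < n → ¬ n ∣ j → ∀ (K : Type u) [Field K] [Algebra k K] [Algebra K₀ K] [IsScalarTower k K₀ K]
    (y : K), IntermediateField.adjoin K₀ {y} = ⊤ →
    algebraMap k K (v ^ j) * y ^ n = algebraMap K₀ K g → NotRationalCurve k K →
    ∀ s : GaloisSection k K, IsGeometric s

/-- `gcd(n, ord_O(g))` does not divide `j` for all places `O` of `K₀ / k` with residue field `k`: for every such
place some divisor `δ` of `n` does not divide `j` and divides the order of `g`, that is, `g` has the same value as
some `δ`-th power `x ^ δ`. -/
def RationalOrders (k : Type u) {K₀ : Type u} [Field k] [Field K₀] [Algebra k K₀] (g : K₀)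
    (n j : ℕ) : Prop :=
  ∀ O : ValuationSubring K₀, O ≠ ⊤ → (∀ c : k, algebraMap k K₀ c ∈ O) →
    (∀ z ∈ O, ∃ c : k, z - algebraMap k K₀ c ∈ O.nonunits) →
    ∃ δ : ℕ, δ ∣ n ∧ ¬ δ ∣ j ∧ ∃ x : K₀, O.valuation g = O.valuation (x ^ δ)

/-- The twists `v^j yⁿ = g`, where `n` does not divide `j` and the condition on the orders of `g` at the rational
places is satisfied, and all curves which map onto them, have no Galois sections: there is no Galois section of
`K / k` if `K` contains `K₀` and an element `y` with `v^j yⁿ = g` and the curve with function field `K₀(y)` is not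
rational over `kbar`. -/
def TwistsHaveNoSections {k K₀ : Type u} [Field k] [Field K₀] [Algebra k K₀] (g : K₀) (v : k) : Prop :=
  ∀ n j : ℕ, 0 < n → ¬ n ∣ j → RationalOrders k g n j →
    ∀ (K : Type u) [Field K] [Algebra k K] [Algebra K₀ K] [IsScalarTower k K₀ K] (y : K),
    algebraMap k K (v ^ j) * y ^ n = algebraMap K₀ K g →
    NotRationalCurve k (IntermediateField.adjoin K₀ {y}) → IsEmpty (GaloisSection k K)

theorem closure_alg (k K : Type u) [Field k] [Field K] [Algebra k K] (A : Set (AlgebraicClosure K)) :
    Subfield.closure ({c | IsAlgebraic k c} ∪ A) =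
      (IntermediateField.adjoin (kbar k K) A).toSubfield := by
  rw [← range_kbar]
  rfl

theorem not_rational {k K : Type u} [Field k] [Field K] [Algebra k K]
    (h : NotRationalCurve k K) (z : Pool.Agent.LT.MM k K) :
    IntermediateField.adjoin (kbar k K) {z} ≠ ⊤ := by
  intro hz
  apply h ((z : Pool.Agent.LT.UU k K) : AlgebraicClosure K)
  rw [closure_alg, closure_alg]
  congr 1
  have h1 : IntermediateField.adjoin (kbar k K) (Set.range (algebraMap K (AlgebraicClosure K))) =
      (⊤ : IntermediateField (kbar k K) (Pool.Agent.LT.MM k K)).map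
        ((Pool.Agent.LT.UU k K).val.comp (Pool.Agent.LT.MM k K).val) := by
    change KK k K = _
    ext w
    constructor
    · intro hw
      exact ⟨⟨⟨w, Pool.Agent.LT.KK_le_UU k K hw⟩,
        (IntermediateField.mem_restrict (Pool.Agent.LT.KK_le_UU k K) _).2 hw⟩, trivial, rfl⟩
    · rintro ⟨m, -, rfl⟩
      exact (IntermediateField.mem_restrict (Pool.Agent.LT.KK_le_UU k K) _).1 m.2
  rw [h1, ← hz, IntermediateField.adjoin_map, Set.image_singleton]
  rfl

/-- An equality of values in terms of the order function. -/
theorem dvd_ord {k K₀ : Type u} [Field k] [CharZero k] [Field K₀] [Algebra k K₀]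
    (hK₀ : IsCurve k K₀) {g : K₀} (hg : g ≠ 0) {n : ℕ} (hn : 0 < n) (O : VC.Place k K₀) {x : K₀}
    (hx : O.ring.valuation g = O.ring.valuation (x ^ n)) : (n : ℤ) ∣ VC.ord O.ring g := by
  obtain ⟨w, hw, π, hπ⟩ := Pool.Agent.TW.exists_val hK₀ O
  have hx0 : x ≠ 0 := by
    rintro rfl
    rw [zero_pow hn.ne', map_zero] at hx
    exact hg ((map_eq_zero O.ring.valuation).1 hx)
  have hxn : x ^ n ≠ 0 := pow_ne_zero n hx0
  have hmem : ∀ z : K₀, z ∈ O.ring ↔ w z ≤ 1 := by
    intro z
    rw [← hw]
    exact Valuation.mem_valuationSubring_iff w z
  have h1 : w (g / x ^ n) ≤ 1 := by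
    rw [← hmem, ← O.ring.valuation_le_one_iff, map_div₀, hx, div_self]
    exact (map_ne_zero O.ring.valuation).2 hxn
  have h2 : w (x ^ n / g) ≤ 1 := by
    rw [← hmem, ← O.ring.valuation_le_one_iff, map_div₀, hx, div_self]
    exact (map_ne_zero O.ring.valuation).2 hxn
  have hwg : w g ≠ 0 := (map_ne_zero w).2 hg
  have hwx : w (x ^ n) ≠ 0 := (map_ne_zero w).2 hxn
  have h3 : w g = w (x ^ n) := by
    rw [map_div₀] at h1 h2
    exact le_antisymm ((div_le_one₀ (zero_lt_iff.2 hwx)).1 h1)
      ((div_le_one₀ (zero_lt_iff.2 hwg)).1 h2)
  rw [map_pow, VC.valuation_eq_exp_ord hw hπ hg,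
    VC.valuation_eq_exp_ord hw hπ hx0, ← WithZero.exp_nsmul] at h3
  have h4 := WithZero.exp_injective h3
  refine ⟨VC.ord O.ring x, ?_⟩
  rw [nsmul_eq_mul] at h4
  linarith

/-- **All Galois sections of the twists of a cyclic cover are geometric, outside a hypersurface.** -/
theorem result {F k K₀ : Type u} [Field F] [CharZero F] [Field k] [Algebra F k]
    [Field K₀] [Algebra k K₀]
    -- `F` and `k` are finitely generated fields
    (hF : ∃ S : Finset F, Subfield.closure (S : Set F) = ⊤)
    (hk : ∃ S : Finset k, Subfield.closure (S : Set k) = ⊤)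
    -- two of the quotients of the `w_e` are algebraically independent over `F`
    {m : ℕ} {w : Fin (m + 1) → k} {i j l : Fin (m + 1)}
    (hw : AlgebraicIndependent F ![w i / w l, w j / w l])
    -- an arbitrary cyclic cover of an arbitrary curve over `k`
    (hK₀ : IsCurve k K₀) {g : K₀} (hg : g ≠ 0) :
    -- the exceptional twists are in a hypersurface
    ∃ Ψ : MvPolynomial (Fin (m + 1)) F, Ψ ≠ 0 ∧
      ∀ a : Fin (m + 1) → F, MvPolynomial.eval a Ψ ≠ 0 →
        TwistsSatisfySC g (∑ e, algebraMap F k (a e) * w e) ∧
        TwistsHaveNoSections g (∑ e, algebraMap F k (a e) * w e) := by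
  have hk0 : CharZero k := charZero_of_injective_algebraMap (algebraMap F k).injective
  obtain ⟨Ψ, hΨ, h⟩ := Pool.Agent.TWH.twists_hypersurface hF hk hw hK₀ hg
  refine ⟨Ψ, hΨ, fun a ha => ⟨?_, ?_⟩⟩
  · intro n j hn hj K _ _ _ _ y hgen heq hrat s
    exact (h a ha).1 n j hn hj K y hgen heq (not_rational hrat) s
  · intro n j hn hj hR K _ _ _ _ y heq hrat
    refine Pool.Agent.TW.isEmpty_of_noSecTwist (h a ha).2 hn hj (fun O hO => ?_) K y heq
      (not_rational hrat)
    obtain ⟨δ, hδn, hδj, x, hx⟩ := hR O.ring O.ne_top O.algebraMap_mem hO
    exact ⟨δ, hδn, hδj, dvd_ord hK₀ hg (Nat.pos_of_dvd_of_pos hδn hn) O hx⟩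

end Pool.Agent.Helper37.Keep.TwistsOutsideHypersurfaceFixed
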